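import Pool.Agent.W26.GP.Final

/-!
# Spaces of operators between spaces with complemented copies of `ℓ_p`

Let `1 < p < ∞`, `p ≠ 2`. If `ℓ_p` is isomorphic to a complemented subspace of `X` and of `Y`,
then the space of all bounded operators from `X` to `Y` contains a complemented copy of `ℓ_1`; in
particular it is not a Grothendieck space. The starting file `NotGrothendieck` has the case
`X = Y = ℓ_p` of the second statement; its main estimate `W26.GP.main_data` is used here.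
-/

set_option autoImplicit false
open Filter Topology Finset
open scoped ENNReal

universe u v w

namespace Pool.Agent.Results.MP_ce6b34_an.ComplementedLp

/-- A normed space `E` over `𝕜` is a *Grothendieck space* if every weak* convergent sequence
`φ n → φ₀` in its dual converges weakly, that is, `Λ (φ n) → Λ φ₀` for all `Λ` in the bidual. -/
def IsGrothendieckSpace (𝕜 : Type u) [RCLike 𝕜] (E : Type v) [NormedAddCommGroup E]
    [NormedSpace 𝕜 E] : Prop :=
  ∀ (φ : ℕ → (E →L[𝕜] 𝕜)) (φ₀ : E →L[𝕜] 𝕜),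
    (∀ x : E, Tendsto (fun n => φ n x) atTop (𝓝 (φ₀ x))) →
    ∀ Λ : (E →L[𝕜] 𝕜) →L[𝕜] 𝕜, Tendsto (fun n => Λ (φ n)) atTop (𝓝 (Λ φ₀))

/-- `E` contains a complemented subspace isomorphic to `F`: there are bounded operators
`i : F → E` and `r : E → F` with `r ∘ i = id`. -/
def ContainsComplemented (𝕜 : Type u) [RCLike 𝕜] (F : Type v) [NormedAddCommGroup F]
    [NormedSpace 𝕜 F] (E : Type w) [NormedAddCommGroup E] [NormedSpace 𝕜 E] : Prop :=
  ∃ (i : F →L[𝕜] E) (r : E →L[𝕜] F), ∀ x, r (i x) = x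

section

variable {𝕜 : Type u} [RCLike 𝕜]

theorem l1_summable (c : lp (fun _ : ℕ => 𝕜) 1) : Summable fun i => ‖c i‖ := by
  have h := (lp.memℓp c).summable (by norm_num)
  simpa using h

theorem l1_norm (c : lp (fun _ : ℕ => 𝕜) 1) : ‖c‖ = ∑' i, ‖c i‖ := by
  rw [lp.norm_eq_tsum_rpow (by norm_num) c]
  simp

theorem l1_sum_le (c : lp (fun _ : ℕ => 𝕜) 1) (k : ℕ) : ∑ i ∈ range k, ‖c i‖ ≤ ‖c‖ := by
  rw [l1_norm]
  exact (l1_summable c).sum_le_tsum _ fun _ _ => norm_nonneg _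

variable {B : Type v} [NormedAddCommGroup B] [NormedSpace 𝕜 B]

/-- A bounded sequence defines an operator on `ℓ_1`. -/
theorem exists_lift [CompleteSpace B] (V : ℕ → B) (hV : ∀ j, ‖V j‖ ≤ 1) :
    ∃ A : lp (fun _ : ℕ => 𝕜) 1 →L[𝕜] B, ∀ c, HasSum (fun j => c j • V j) (A c) := by
  have hb : ∀ (c : lp (fun _ : ℕ => 𝕜) 1) j, ‖c j • V j‖ ≤ ‖c j‖ := fun c j => by
    rw [norm_smul]
    exact mul_le_of_le_one_right (norm_nonneg _) (hV j)
  have hs : ∀ c : lp (fun _ : ℕ => 𝕜) 1, Summable fun j => c j • V j := fun c =>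
    Summable.of_norm_bounded (l1_summable c) (hb c)
  let A0 : lp (fun _ : ℕ => 𝕜) 1 →ₗ[𝕜] B :=
    { toFun := fun c => ∑' j, c j • V j
      map_add' := fun c d => by
        rw [← (hs c).tsum_add (hs d)]
        refine tsum_congr fun j => ?_
        rw [lp.coeFn_add, Pi.add_apply, add_smul]
      map_smul' := fun a c => by
        rw [RingHom.id_apply, ← (hs c).tsum_const_smul a]
        refine tsum_congr fun j => ?_
        rw [lp.coeFn_smul, Pi.smul_apply, smul_assoc] }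
  refine ⟨A0.mkContinuous 1 fun c => ?_, fun c => (hs c).hasSum⟩
  rw [one_mul, l1_norm]
  exact tsum_of_norm_bounded (l1_summable c).hasSum (hb c)

/-- The abstract criterion for complemented copies of `ℓ_1`. -/
theorem contains_l1 [CompleteSpace B] (phi : ℕ → ℕ → (B →ₗ[𝕜] 𝕜)) (C : ℝ)
    (hsum : ∀ n k T, ∑ i ∈ range k, ‖phi n i T‖ ≤ C * ‖T‖) (V : ℕ → B) (hV : ∀ j, ‖V j‖ ≤ 1)
    (hphi : ∀ n i j, i < n → phi n i (V j) = if i = j then 1 else 0) :
    ContainsComplemented 𝕜 (lp (fun _ : ℕ => 𝕜) 1) B := by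
  obtain ⟨A, hA⟩ := exists_lift (𝕜 := 𝕜) V hV
  let P0 : B →ₗ[𝕜] lp (fun _ : ℕ => 𝕜) 1 :=
    { toFun := fun T => ⟨fun i => W26.GP.Phi phi C hsum i T, memℓp_gen (by
        simpa using W26.GP.Phi_summable phi C hsum T)⟩
      map_add' := fun S T => by
        ext i
        exact map_add (W26.GP.Phi phi C hsum i) S T
      map_smul' := fun a T => by
        ext i
        exact map_smul (W26.GP.Phi phi C hsum i) a T }
  have hP : ∀ T i, P0 T i = W26.GP.Phi phi C hsum i T := fun T i => rfl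
  refine ⟨A, P0.mkContinuous C fun T => ?_, fun c => ?_⟩
  · rw [l1_norm]
    simp only [hP]
    exact Real.tsum_le_of_sum_range_le (fun _ => norm_nonneg _) fun k =>
      W26.GP.Phi_sum phi C hsum k T
  · ext i
    show P0 (A c) i = c i
    rw [hP]
    have h1 := (hA c).mapL (W26.GP.Phi phi C hsum i)
    have h2 : HasSum (fun j => W26.GP.Phi phi C hsum i (c j • V j)) (c i) := by
      have h3 : ∀ j, W26.GP.Phi phi C hsum i (c j • V j) = if j = i then c i else 0 := by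
        intro j
        rw [map_smul, W26.GP.Phi_V phi C hsum V hphi i j, smul_eq_mul]
        by_cases hij : i = j
        · subst hij
          simp
        · rw [if_neg hij, if_neg (Ne.symm hij), mul_zero]
      simp only [h3]
      exact hasSum_ite_eq i (c i)
    exact h1.unique h2

/-- A space with a complemented copy of `ℓ_1` is not a Grothendieck space. -/
theorem not_grothendieck_of_l1 (h : ContainsComplemented 𝕜 (lp (fun _ : ℕ => 𝕜) 1) B) :
    ¬ IsGrothendieckSpace 𝕜 B := by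
  obtain ⟨A, P, hPA⟩ := h
  have hA0 : 0 ≤ ‖A‖ := A.opNorm_nonneg
  have hP0 : 0 ≤ ‖P‖ := P.opNorm_nonneg
  set l : ℝ := ‖A‖ + 1 with hl
  have hl0 : 0 < l := by linarith
  have hlne : (l : 𝕜) ≠ 0 := by
    rw [Ne, RCLike.ofReal_eq_zero]
    exact hl0.ne'
  have hlnorm : ‖(l : 𝕜)‖ = l := by
    rw [RCLike.norm_ofReal, abs_of_pos hl0]
  let phi : ℕ → ℕ → (B →ₗ[𝕜] 𝕜) := fun _ i =>
    { toFun := fun T => (l : 𝕜) * P T i
      map_add' := fun S T => by
        rw [map_add, lp.coeFn_add, Pi.add_apply, mul_add]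
      map_smul' := fun a T => by
        rw [map_smul, lp.coeFn_smul, Pi.smul_apply, smul_eq_mul, RingHom.id_apply, smul_eq_mul]
        ring }
  have hphi0 : ∀ n i T, phi n i T = (l : 𝕜) * P T i := fun _ _ _ => rfl
  let V : ℕ → B := fun j => (l : 𝕜)⁻¹ • A (lp.single 1 j (1 : 𝕜))
  refine W26.GP.not_grothendieck phi (l * ‖P‖) (fun n k T => ?_) V (fun j => ?_)
    (fun n i j _ => ?_)
  · simp only [hphi0, norm_mul, hlnorm]
    rw [← Finset.mul_sum, mul_assoc]
    exact mul_le_mul_of_nonneg_left ((l1_sum_le (P T) k).trans (P.le_opNorm T)) hl0.le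
  · have h1 : ‖lp.single (E := fun _ : ℕ => 𝕜) 1 j (1 : 𝕜)‖ = 1 := by
      rw [lp.norm_single (by norm_num)]
      simp
    have h2 : ‖A (lp.single 1 j (1 : 𝕜))‖ ≤ ‖A‖ := by
      have := A.le_opNorm (lp.single (E := fun _ : ℕ => 𝕜) 1 j (1 : 𝕜))
      rwa [h1, mul_one] at this
    show ‖(l : 𝕜)⁻¹ • A (lp.single 1 j (1 : 𝕜))‖ ≤ 1
    rw [norm_smul, norm_inv, hlnorm, inv_mul_le_iff₀ hl0, mul_one]
    linarith
  · show (l : 𝕜) * P ((l : 𝕜)⁻¹ • A (lp.single 1 j (1 : 𝕜))) i = _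
    rw [map_smul, hPA, lp.coeFn_smul, Pi.smul_apply, smul_eq_mul, ← mul_assoc,
      mul_inv_cancel₀ hlne, one_mul, lp.single_apply]
    by_cases hij : i = j
    · subst hij
      simp
    · rw [if_neg hij, Pi.single_eq_of_ne hij]

end

/-- **Main theorem.** Let `1 < p < ∞`, `p ≠ 2`, and let `X` and `Y` be Banach spaces over the real
or complex numbers each of which contains a complemented subspace isomorphic to `ℓ_p`. Then the
space of all bounded operators from `X` to `Y` contains a complemented subspace isomorphic to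
`ℓ_1`, and it is not a Grothendieck space. -/
theorem result (𝕜 : Type u) [RCLike 𝕜] (p : ℝ≥0∞) [Fact (1 ≤ p)] (h1 : 1 < p) (htop : p < ∞)
    (h2 : p ≠ 2) (X : Type v) [NormedAddCommGroup X] [NormedSpace 𝕜 X]
    (Y : Type w) [NormedAddCommGroup Y] [NormedSpace 𝕜 Y] [CompleteSpace Y]
    (hX : ContainsComplemented 𝕜 (lp (fun _ : ℕ => 𝕜) p) X)
    (hY : ContainsComplemented 𝕜 (lp (fun _ : ℕ => 𝕜) p) Y) :
    ContainsComplemented 𝕜 (lp (fun _ : ℕ => 𝕜) 1) (X →L[𝕜] Y) ∧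
      ¬ IsGrothendieckSpace 𝕜 (X →L[𝕜] Y) := by
  have key : ContainsComplemented 𝕜 (lp (fun _ : ℕ => 𝕜) 1) (X →L[𝕜] Y) := by
    obtain ⟨f, C, V, hf, hV, hfV⟩ := W26.GP.main_data (𝕜 := 𝕜) (p := p) h1 htop.ne h2
    obtain ⟨A, P, hPA⟩ := contains_l1 f C hf V hV hfV
    obtain ⟨i, r, hir⟩ := hX
    obtain ⟨i', r', hir'⟩ := hY
    let Ψ : (lp (fun _ : ℕ => 𝕜) p →L[𝕜] lp (fun _ : ℕ => 𝕜) p) →L[𝕜] (X →L[𝕜] Y) :=
      (ContinuousLinearMap.compL 𝕜 X (lp (fun _ : ℕ => 𝕜) p) Y i').comp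
        ((ContinuousLinearMap.compL 𝕜 X (lp (fun _ : ℕ => 𝕜) p) (lp (fun _ : ℕ => 𝕜) p)).flip r)
    let Θ : (X →L[𝕜] Y) →L[𝕜] (lp (fun _ : ℕ => 𝕜) p →L[𝕜] lp (fun _ : ℕ => 𝕜) p) :=
      (ContinuousLinearMap.compL 𝕜 (lp (fun _ : ℕ => 𝕜) p) Y (lp (fun _ : ℕ => 𝕜) p) r').comp
        ((ContinuousLinearMap.compL 𝕜 (lp (fun _ : ℕ => 𝕜) p) X Y).flip i)
    have hΘΨ : ∀ T, Θ (Ψ T) = T := by
      intro T
      apply ContinuousLinearMap.ext
      intro x
      show r' (i' (T (r (i x)))) = T x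
      rw [hir', hir]
    refine ⟨Ψ.comp A, P.comp Θ, fun c => ?_⟩
    show P (Θ (Ψ (A c))) = c
    rw [hΘΨ, hPA]
  exact ⟨key, not_grothendieck_of_l1 key⟩

end Pool.Agent.Results.MP_ce6b34_an.ComplementedLp
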